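import Pool.Agent.Helper95.KZ.Goals
import Pool.Agent.Helper35.NW.ZED

set_option autoImplicit false

namespace Pool.Agent.Helper35.KZ

open Pool.Agent.Helper52.Wq2
open Pool.Agent.Helper61.NW
open Pool.Agent.Helper95.KZ
open Pool.Agent.Helper35.NW

universe u

theorem exists_walk {Γ : Type u} [Group Γ] {S : Set Γ} (hS : IsGen S) (g : Γ) :
    ∃ (n : ℕ) (v : ℕ → Γ), (∀ i, i < n → (v i)⁻¹ * v (i + 1) ∈ S) ∧ v 0 = 1 ∧ v n = g := by
  have hg : g ∈ Subgroup.closure S := by rw [hS.1]; trivial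
  induction hg using Subgroup.closure_induction with
  | mem x hx =>
    refine ⟨1, fun i => if i = 0 then 1 else x, ?_, by simp, by simp⟩
    intro i hi
    have : i = 0 := by omega
    subst this
    simpa using hx
  | one => exact ⟨0, fun _ => 1, fun i hi => absurd hi (Nat.not_lt_zero i), rfl, rfl⟩
  | mul x y _ _ ihx ihy =>
    obtain ⟨n, v, h1, h2, h3⟩ := ihx
    obtain ⟨m, w, g1, g2, g3⟩ := ihy
    refine ⟨n + m, fun i => if i ≤ n then v i else x * w (i - n), ?_, ?_, ?_⟩
    · intro i hi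
      simp only
      by_cases a1 : i + 1 ≤ n
      · rw [if_pos (by omega), if_pos a1]; exact h1 i (by omega)
      · by_cases a2 : i ≤ n
        · have a3 : i = n := by omega
          subst a3
          rw [if_pos le_rfl, if_neg a1, h3]
          have a4 : i + 1 - i = 0 + 1 := by omega
          rw [a4]
          have a5 : x⁻¹ * (x * w (0 + 1)) = (w 0)⁻¹ * w (0 + 1) := by rw [g2]; group
          rw [a5]; exact g1 0 (by omega)
        · rw [if_neg a2, if_neg a1]
          have a4 : i + 1 - n = (i - n) + 1 := by omega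
          rw [a4]
          have a5 : (x * w (i - n))⁻¹ * (x * w (i - n + 1)) = (w (i - n))⁻¹ * w (i - n + 1) := by
            group
          rw [a5]; exact g1 _ (by omega)
    · simp only
      rw [if_pos (Nat.zero_le _)]; exact h2
    · simp only
      by_cases a1 : m = 0
      · subst a1
        rw [if_pos (by omega), ← g3, g2, add_zero, h3, mul_one]
      · rw [if_neg (by omega), Nat.add_sub_cancel_left, g3]
  | inv x _ ih =>
    obtain ⟨n, v, h1, h2, h3⟩ := ih
    refine ⟨n, fun i => x⁻¹ * v (n - i), ?_, ?_, ?_⟩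
    · intro i hi
      simp only
      have e : n - i = (n - (i + 1)) + 1 := by omega
      rw [e]
      have h4 := hS.2.1 _ (h1 (n - (i + 1)) (by omega))
      have e2 : (x⁻¹ * v (n - (i + 1) + 1))⁻¹ * (x⁻¹ * v (n - (i + 1))) =
          ((v (n - (i + 1)))⁻¹ * v (n - (i + 1) + 1))⁻¹ := by group
      rw [e2]; exact h4
    · simp only
      rw [Nat.sub_zero, h3, inv_mul_cancel]
    · simp only
      rw [Nat.sub_self, h2, mul_one]

theorem conn_walk {Γ : Type u} [Group Γ] {S : Set Γ} (hS : IsGen S) (v : ℕ → Γ) (n : ℕ)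
    (hv : ∀ i, i < n → (v i)⁻¹ * v (i + 1) ∈ S) :
    Conn (cay S) {x | ∃ i, i ≤ n ∧ x = v i} := by
  induction n with
  | zero =>
    have : {x | ∃ i, i ≤ 0 ∧ x = v i} = {v 0} := by
      ext x
      constructor
      · rintro ⟨i, hi, rfl⟩
        rw [Nat.le_zero.1 hi]; rfl
      · intro h
        exact ⟨0, le_refl _, h⟩
    rw [this]
    exact conn_singleton _ _
  | succ n ih =>
    have h1 := ih (fun i hi => hv i (by omega))
    have : {x | ∃ i, i ≤ n + 1 ∧ x = v i} = {x | ∃ i, i ≤ n ∧ x = v i} ∪ {v (n + 1)} := by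
      ext x
      constructor
      · rintro ⟨i, hi, rfl⟩
        rcases Nat.lt_or_ge n i with h | h
        · have : i = n + 1 := by omega
          subst this
          exact Or.inr rfl
        · exact Or.inl ⟨i, h, rfl⟩
      · rintro (⟨i, hi, rfl⟩ | h)
        · exact ⟨i, by omega, rfl⟩
        · exact ⟨n + 1, le_refl _, h⟩
    rw [this]
    exact h1.union (conn_singleton _ _) (a := v n) ⟨n, le_refl _, rfl⟩ rfl
      ((cay_adj hS _ _).2 (hv n (Nat.lt_succ_self n)))

theorem lin : LinStmt.{u} := by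
  classical
  intro Γ _ S K a hS hK hac haK
  have hacz : ∀ (l : ℤ), ∀ k ∈ K, k * a ^ l = a ^ l * k := by
    intro l k hk
    exact ((show Commute k a from (hac k hk).symm).zpow_right l).eq
  have hex : ∃ n : ℕ, ∃ v : ℕ → Γ, (∀ i, i < n → (v i)⁻¹ * v (i + 1) ∈ S) ∧
      ∃ κ ∈ K, ∃ j : ℤ, j ≠ 0 ∧ v n = κ * a ^ j * v 0 := by
    obtain ⟨n, v, h1, h2, h3⟩ := exists_walk hS a
    exact ⟨n, v, h1, 1, K.one_mem, 1, one_ne_zero, by rw [h2, h3]; simp⟩
  obtain ⟨n, ⟨v, hv, κ, hκ, j, hj, hvn⟩, hmin⟩ : ∃ n : ℕ, (∃ v : ℕ → Γ,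
      (∀ i, i < n → (v i)⁻¹ * v (i + 1) ∈ S) ∧
      ∃ κ ∈ K, ∃ j : ℤ, j ≠ 0 ∧ v n = κ * a ^ j * v 0) ∧
      ∀ m, (∃ v : ℕ → Γ, (∀ i, i < m → (v i)⁻¹ * v (i + 1) ∈ S) ∧
      ∃ κ ∈ K, ∃ j : ℤ, j ≠ 0 ∧ v m = κ * a ^ j * v 0) → n ≤ m :=
    ⟨Nat.find hex, Nat.find_spec hex, fun m hm => Nat.find_min' hex hm⟩
  have hn0 : 0 < n := by
    rcases Nat.eq_zero_or_pos n with h | h
    · exfalso
      rw [h] at hvn
      have h1 : κ * a ^ j = 1 := by
        have := hvn.symm
        exact mul_eq_right.1 this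
      apply hj
      apply haK
      have : a ^ j = κ⁻¹ := by
        rw [eq_inv_iff_mul_eq_one, ← hacz j κ hκ]; exact h1
      rw [this]; exact K.inv_mem hκ
    · exact h
  -- the key property
  have key1 : ∀ p q : ℕ, p < q → q < n → ∀ k ∈ K, ∀ l : ℤ, v p ≠ k * a ^ l * v q := by
    intro p q hpq hqn k hk l he
    by_cases hl : l = 0
    · have hm := hmin (n - (q - p)) ⟨fun i => if i ≤ p then v i else k * v (i + (q - p)), ?_,
        k * κ, K.mul_mem hk hκ, j, hj, ?_⟩
      · omega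
      · intro i hi
        simp only
        by_cases h1 : i + 1 ≤ p
        · rw [if_pos (by omega), if_pos h1]
          exact hv i (by omega)
        · by_cases h2 : i ≤ p
          · have hip : i = p := by omega
            subst hip
            rw [if_pos le_rfl, if_neg h1, he, hl]
            have h3 : i + 1 + (q - i) = q + 1 := by omega
            rw [h3]
            have h4 : (k * a ^ (0 : ℤ) * v q)⁻¹ * (k * v (q + 1)) = (v q)⁻¹ * v (q + 1) := by
              rw [zpow_zero]; group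
            rw [h4]
            exact hv q hqn
          · rw [if_neg h2, if_neg h1]
            have h3 : i + 1 + (q - p) = (i + (q - p)) + 1 := by omega
            rw [h3]
            have h4 : (k * v (i + (q - p)))⁻¹ * (k * v (i + (q - p) + 1)) =
                (v (i + (q - p)))⁻¹ * v (i + (q - p) + 1) := by group
            rw [h4]
            exact hv _ (by omega)
      · simp only
        rw [if_neg (by omega), if_pos (Nat.zero_le _)]
        have h3 : n - (q - p) + (q - p) = n := by omega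
        rw [h3, hvn]
        simp only [mul_assoc]
    · have hm := hmin (q - p) ⟨fun i => v (i + p), ?_, k⁻¹, K.inv_mem hk, -l, by omega, ?_⟩
      · omega
      · intro i hi
        simp only
        have h3 : i + 1 + p = (i + p) + 1 := by omega
        rw [h3]
        exact hv _ (by omega)
      · simp only
        have h3 : q - p + p = q := by omega
        rw [h3, zero_add, he, hacz (-l) _ (K.inv_mem hk)]
        group
  have key : ∀ p q : ℕ, p < n → q < n → ∀ k ∈ K, ∀ l : ℤ, v p = k * a ^ l * v q →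
      k = 1 ∧ l = 0 := by
    intro p q hp hq k hk l he
    have hpq : p = q := by
      rcases lt_trichotomy p q with h | h | h
      · exact absurd he (key1 p q h hq k hk l)
      · exact h
      · refine absurd ?_ (key1 q p h hp k⁻¹ (K.inv_mem hk) (-l))
        rw [he, hacz (-l) _ (K.inv_mem hk)]
        group
    subst hpq
    have h1 : k * a ^ l = 1 := mul_eq_right.1 he.symm
    have h2 : l = 0 := by
      apply haK
      have : a ^ l = k⁻¹ := by
        rw [eq_inv_iff_mul_eq_one, ← hacz l k hk]; exact h1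
      rw [this]; exact K.inv_mem hk
    refine ⟨?_, h2⟩
    rw [h2, zpow_zero, mul_one] at h1
    exact h1
  have hz : ∀ i : ℤ, (κ * a ^ j) ^ i = κ ^ i * a ^ (j * i) := by
    intro i
    rw [zpow_mul]
    exact (show Commute κ (a ^ j) from hacz j κ hκ).mul_zpow i
  have hfinset : ({x | ∃ i, i < n ∧ x = v i} : Set Γ).Finite := by
    have : ({x | ∃ i, i < n ∧ x = v i} : Set Γ) ⊆ v '' (Set.Iio n) := by
      rintro x ⟨i, hi, rfl⟩
      exact ⟨i, hi, rfl⟩
    exact ((Set.finite_Iio n).image v).subset this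
  refine ⟨κ, hκ, j, hj, {x | ∃ i, i < n ∧ x = v i}, hfinset, ⟨v 0, 0, hn0, rfl⟩, ?_, ?_⟩
  · have heq : {x | ∃ i : ℤ, ∃ f ∈ {x | ∃ i, i < n ∧ x = v i}, x = (κ * a ^ j) ^ i * f} =
        ⋃ i : ℤ, tr ((κ * a ^ j) ^ i) {x | ∃ i, i ≤ n ∧ x = v i} := by
      ext x
      constructor
      · rintro ⟨i, f, ⟨p, hp, rfl⟩, rfl⟩
        refine Set.mem_iUnion.2 ⟨i, ?_⟩
        rw [mem_tr, inv_mul_cancel_left]
        exact ⟨p, hp.le, rfl⟩
      · intro h
        obtain ⟨i, p, hp, he⟩ := Set.mem_iUnion.1 h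
        rcases Nat.lt_or_ge p n with h1 | h1
        · exact ⟨i, v p, ⟨p, h1, rfl⟩, by rw [← he]; group⟩
        · have hpn : p = n := by omega
          subst hpn
          refine ⟨i + 1, v 0, ⟨0, hn0, rfl⟩, ?_⟩
          rw [zpow_add_one, mul_assoc, ← hvn, ← he]; group
    rw [heq]
    refine union_chain _ (fun i => tr_conn hS _ (conn_walk hS v n hv)) ?_
    intro i
    refine ⟨(κ * a ^ j) ^ (i + 1) * v 0, ?_, ?_⟩
    · rw [mem_tr]
      refine ⟨n, le_refl _, ?_⟩
      rw [hvn, zpow_add_one]; group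
    · rw [mem_tr, inv_mul_cancel_left]
      exact ⟨0, Nat.zero_le _, rfl⟩
  · rintro k hk hk1 x ⟨i, f, ⟨p, hp, rfl⟩, rfl⟩ ⟨i', f', ⟨q, hq, rfl⟩, he⟩
    have h1 : v p = (κ ^ (-i) * k⁻¹ * κ ^ i') * a ^ (j * i' - j * i) * v q := by
      have h2 : v p = (κ * a ^ j) ^ (-i) * (k⁻¹ * ((κ * a ^ j) ^ i' * v q)) := by
        rw [← he]; group
      rw [h2, hz, hz]
      have hk' := K.inv_mem hk
      have e1 : a ^ (j * -i) * k⁻¹ = k⁻¹ * a ^ (j * -i) := (hacz _ _ hk').symm
      have e2 : a ^ (j * -i) * κ ^ i' = κ ^ i' * a ^ (j * -i) :=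
        (hacz _ _ (K.zpow_mem hκ i')).symm
      have e3 : a ^ (j * i' - j * i) = a ^ (j * -i) * a ^ (j * i') := by
        rw [← zpow_add]; congr 1; ring
      rw [e3]
      calc κ ^ (-i) * a ^ (j * -i) * (k⁻¹ * (κ ^ i' * a ^ (j * i') * v q))
          = κ ^ (-i) * (a ^ (j * -i) * k⁻¹) * (κ ^ i' * a ^ (j * i') * v q) := by
            simp only [mul_assoc]
        _ = κ ^ (-i) * k⁻¹ * (a ^ (j * -i) * κ ^ i') * (a ^ (j * i') * v q) := by
            rw [e1]; simp only [mul_assoc]
        _ = κ ^ (-i) * k⁻¹ * κ ^ i' * (a ^ (j * -i) * a ^ (j * i')) * v q := by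
            rw [e2]; simp only [mul_assoc]
    obtain ⟨h2, h3⟩ := key p q hp hq _ (K.mul_mem (K.mul_mem (K.zpow_mem hκ _) (K.inv_mem hk))
      (K.zpow_mem hκ _)) _ h1
    have h4 : i' = i := by
      have : j * (i' - i) = 0 := by rw [mul_sub]; exact h3
      rcases mul_eq_zero.1 this with h | h
      · exact absurd h hj
      · omega
    apply hk1
    rw [h4] at h2
    have h5 : k⁻¹ = 1 := by
      have : k⁻¹ = (κ ^ (-i))⁻¹ * (κ ^ (-i) * k⁻¹ * κ ^ i) * (κ ^ i)⁻¹ := by group
      rw [this, h2, zpow_neg]; group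
    exact inv_eq_one.1 h5

end Pool.Agent.Helper35.KZ
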